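import Pool.Agent.MP_8a4945_al.H85.Example

namespace Pool.Agent.Results.MP_8a4945_al.NotClosed

open Pool.Agent.MP_8a4945_al.H85

universe u

/-- There is a finite semigroup presentation `P` and a baseword `w` such that the derived subgroup
of the diagram group `D(P, w)` is not isomorphic to any diagram group `D(Q, v)`. -/
theorem result : ∃ (A : Type) (P : Pres A) (w : Word P), Finite A ∧ P.rel.Finite ∧
    (∀ r ∈ P.rel, (r.2, r.1) ∉ P.rel) ∧
    ∀ (B : Type u) (Q : Pres B) (v : Word Q),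
      IsEmpty (commutator (DiagramGroup P w) ≃* DiagramGroup Q v) := by
  refine ⟨Le, P0, w0, ?_, ?_, ?_, fun B Q v => ⟨fun e => ?_⟩⟩
  · refine Finite.of_surjective (fun x : Bool ⊕ Fin 4 =>
      Sum.elim (fun b => bif b then Le.a else Le.c) Le.s x) ?_
    rintro (_ | _ | x)
    exacts [⟨.inl true, rfl⟩, ⟨.inl false, rfl⟩, ⟨.inr x, rfl⟩]
  · have : Finite R7 := by
      refine Finite.of_surjective (fun x : Bool ⊕ Fin 3 ⊕ Bool =>
        Sum.elim (fun b => bif b then R7.le else R7.re) (Sum.elim R7.star R7.chord) x) ?_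
      rintro (_ | _ | x | x)
      exacts [⟨.inl true, rfl⟩, ⟨.inl false, rfl⟩, ⟨.inr (.inl x), rfl⟩, ⟨.inr (.inr x), rfl⟩]
    exact Set.finite_range _
  · rintro _ ⟨_ | _ | y | (_ | _), rfl⟩ ⟨_ | _ | y' | (_ | _), h⟩ <;>
      simp [rel0, csrc, ctgt] at h
  · obtain ⟨x, hx⟩ := example_bad
    exact diagram_not_bad Q v e hx

end Pool.Agent.Results.MP_8a4945_al.NotClosed
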